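import Pool.Agent.Helper56.AP.Defs2
import Pool.Agent.Helper57.KP.P1

/-!
# Project A' (MP_8958e8), block SM: weighted sums
-/

open MeasureTheory Set Filter Topology
open Pool.Agent.Helper57.Zeta Pool.Agent.Helper57.PC Pool.Agent.Helper57.LH Pool.Agent.Helper78.SG
open Pool.Agent.Helper4.SH (om)
open Pool.Agent.Helper69.FF Pool.Agent.Helper57.KP
open scoped ContDiff

set_option autoImplicit false

namespace Pool.Agent.AP

private theorem van34 {R : ℝ} {f : ℝ → ℝ} (hs : ∀ u, f u ≠ 0 → |u| ≤ R) {u : ℝ} (hu : R < |u|) : f u = 0 := by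
  by_contra h
  exact absurd (hs u h) (not_le.2 hu)

private theorem end34 {R : ℝ} {f : ℝ → ℝ} (hf : ContDiff ℝ 1 f) (hs : ∀ u, f u ≠ 0 → |u| ≤ R) {u : ℝ} (hu : R ≤ u) : f u = 0 := by
  have h1 : ∀ v, R < v → f v = 0 := fun v hv => van34 hs (hv.trans_le (le_abs_self v))
  rcases hu.eq_or_lt with h | h
  · subst h
    have hc : Continuous f := hf.continuous
    have h2 : Tendsto f (𝓝[>] R) (𝓝 (f R)) := hc.continuousAt.mono_left nhdsWithin_le_nhds
    have h3 : Tendsto f (𝓝[>] R) (𝓝 0) := by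
      refine tendsto_const_nhds.congr' ?_
      filter_upwards [self_mem_nhdsWithin] with v hv
      exact (h1 v hv).symm
    exact tendsto_nhds_unique h2 h3
  · exact h1 u h

/-- the weight as an integral -/
private theorem rep34 {R : ℝ} {f : ℝ → ℝ} (hf : ContDiff ℝ 1 f) (hs : ∀ u, f u ≠ 0 → |u| ≤ R) (v : ℝ) :
    f v = -∫ u in Icc (-R) R, deriv f u * (if v ≤ u then 1 else 0) := by
  have hd : Continuous (deriv f) := hf.continuous_deriv le_rfl
  have hff : ∀ a b : ℝ, ∫ u in a..b, deriv f u = f b - f a := fun a b =>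
    intervalIntegral.integral_deriv_eq_sub (fun x _ => hf.differentiable (by norm_num) x) (hd.intervalIntegrable _ _)
  have h0 : f R = 0 := end34 hf hs le_rfl
  rcases lt_or_ge R v with h | h
  · rw [van34 hs (h.trans_le (le_abs_self v))]
    rw [setIntegral_congr_fun (g := fun _ => (0 : ℝ)) measurableSet_Icc, integral_zero, neg_zero]
    intro u hu
    simp only
    rw [if_neg (not_le.2 (hu.2.trans_lt h)), mul_zero]
  · have e1 : ∫ u in Icc (-R) R, deriv f u * (if v ≤ u then 1 else 0) = ∫ u in Icc (max v (-R)) R, deriv f u := by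
      have e2 : ∀ u, deriv f u * (if v ≤ u then 1 else 0) = (Ici v).indicator (deriv f) u := by
        intro u
        by_cases hu : v ≤ u
        · rw [if_pos hu, mul_one, indicator_of_mem (show u ∈ Ici v from hu)]
        · rw [if_neg hu, mul_zero, indicator_of_notMem (show u ∉ Ici v from hu)]
      simp only [e2]
      rw [setIntegral_indicator measurableSet_Ici]
      congr 2
      ext u
      simp only [mem_inter_iff, mem_Icc, mem_Ici, max_le_iff]
      tauto
    rw [e1]
    rcases le_or_gt (-R) v with h2 | h2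
    · rw [max_eq_left h2, integral_Icc_eq_integral_Ioc, ← intervalIntegral.integral_of_le h, hff, h0]
      ring
    · have h3 : f v = 0 := by
        refine van34 hs ?_
        have := neg_le_abs v
        linarith
      rw [max_eq_right h2.le, h3]
      rcases le_or_gt (-R) R with h4 | h4
      · rw [integral_Icc_eq_integral_Ioc, ← intervalIntegral.integral_of_le h4, hff, h0]
        have h5 : f (-R) = 0 := by
          have hc : Continuous f := hf.continuous
          have h6 : Tendsto f (𝓝[<] (-R)) (𝓝 (f (-R))) := hc.continuousAt.mono_left nhdsWithin_le_nhds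
          have h7 : Tendsto f (𝓝[<] (-R)) (𝓝 0) := by
            refine tendsto_const_nhds.congr' ?_
            filter_upwards [self_mem_nhdsWithin] with w hw
            have hw' : w < -R := hw
            refine (van34 hs ?_).symm
            have := neg_le_abs w
            linarith
          exact tendsto_nhds_unique h6 h7
        rw [h5]
        ring
      · rw [Icc_eq_empty (not_le.2 h4)]
        simp

/-- the main term -/
private theorem main34 {R : ℝ} (hR : 0 < R) {f : ℝ → ℝ} (hf : ContDiff ℝ 1 f) (hs : ∀ u, f u ≠ 0 → |u| ≤ R) :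
    ∫ u, Real.exp u * f u = -∫ u in Icc (-R) R, deriv f u * Real.exp u := by
  have hd : Continuous (deriv f) := hf.continuous_deriv le_rfl
  have e1 : ∫ u, Real.exp u * f u = ∫ u in Icc (-R) R, Real.exp u * f u := by
    rw [← integral_indicator measurableSet_Icc]
    refine integral_congr_ae (Eventually.of_forall fun u => ?_)
    simp only
    by_cases hu : u ∈ Icc (-R) R
    · rw [indicator_of_mem hu]
    · rw [indicator_of_notMem hu, van34 hs, mul_zero]
      by_contra h
      exact hu (abs_le.1 (not_lt.1 h))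
  have hRR : -R ≤ R := by linarith
  have h0 : f R = 0 := end34 hf hs le_rfl
  have h5 : f (-R) = 0 := by
    have h6 := end34 (f := fun u => f (-u)) (R := R) (hf.comp contDiff_neg) (fun u hu => by
      have := hs (-u) hu
      rwa [abs_neg] at this) (u := R) le_rfl
    exact h6
  rw [e1, integral_Icc_eq_integral_Ioc, integral_Icc_eq_integral_Ioc, ← intervalIntegral.integral_of_le hRR,
    ← intervalIntegral.integral_of_le hRR]
  have h1 := intervalIntegral.integral_mul_deriv_eq_deriv_mul (a := -R) (b := R) (u := f) (v := Real.exp) (u' := deriv f) (v' := Real.exp)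
    (fun x _ => (hf.differentiable (by norm_num) x).hasDerivAt) (fun x _ => Real.hasDerivAt_exp x) (hd.intervalIntegrable _ _)
    (Real.continuous_exp.intervalIntegrable _ _)
  rw [h0, h5] at h1
  have e2 : (fun u => Real.exp u * f u) = fun u => f u * Real.exp u := by
    funext u
    ring
  rw [e2, h1]
  ring

/-- the weight `W² e^(-u)` -/
private noncomputable def Gw (W : ℝ → ℝ) (u : ℝ) : ℝ := W u ^ 2 * Real.exp (-u)

private theorem Gw_smooth {W : ℝ → ℝ} {R : ℝ} (hW : PF W R) : ContDiff ℝ 1 (Gw W) := by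
  unfold Gw
  have h1 : ContDiff ℝ 1 W := hW.smooth.of_le (by exact_mod_cast le_top)
  exact (h1.pow 2).mul (Real.contDiff_exp.comp contDiff_neg)

private theorem Gw_supp {W : ℝ → ℝ} {R : ℝ} (hW : PF W R) (u : ℝ) (h : Gw W u ≠ 0) : |u| ≤ R := by
  refine hW.supp u fun h0 => h ?_
  unfold Gw
  rw [h0]
  ring

private theorem Gw_int (W : ℝ → ℝ) : ∫ u, Real.exp u * Gw W u = ∫ y, W y ^ 2 := by
  refine integral_congr_ae (Eventually.of_forall fun u => ?_)
  simp only
  unfold Gw
  rw [mul_left_comm, ← Real.exp_add, add_neg_cancel, Real.exp_zero, mul_one]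

/-- the derivative is bounded -/
private theorem Gw_deriv {W : ℝ → ℝ} {R : ℝ} (hW : PF W R) : ∃ K : ℝ, 0 < K ∧ ∀ u, |deriv (Gw W) u| ≤ K := by
  have hd : Continuous (deriv (Gw W)) := (Gw_smooth hW).continuous_deriv le_rfl
  have hc : HasCompactSupport (Gw W) := by
    refine HasCompactSupport.intro (isCompact_Icc (a := -R) (b := R)) fun x hx => ?_
    by_contra h
    exact hx (abs_le.1 (Gw_supp hW x h))
  obtain ⟨K, hK⟩ := hd.bounded_above_of_compact_support hc.deriv
  exact ⟨max K 1, lt_of_lt_of_le one_pos (le_max_right _ _), fun u => (hK u).trans (le_max_left _ _)⟩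

/-- the weighted sum with `G` -/
private theorem Sm_Gw {W : ℝ → ℝ} {R : ℝ} (c : ℝ) (f : ℕ → ℝ) :
    Sm W R c f = Real.exp (-c) * ∑ n ∈ Finset.Icc 1 ⌊Real.exp (c + R)⌋₊, f n * Gw W (Real.log n - c) := by
  unfold Sm
  rw [Finset.mul_sum]
  refine Finset.sum_congr rfl fun n hn => ?_
  have hn1 : (0 : ℝ) < n := by exact_mod_cast (Finset.mem_Icc.1 hn).1
  unfold Gw
  have h1 : Real.exp (-(Real.log n - c)) = Real.exp c / n := by
    rw [neg_sub, Real.exp_sub, Real.exp_log hn1]
  rw [h1]
  have h2 : Real.exp (-c) * Real.exp c = 1 := by rw [← Real.exp_add, neg_add_cancel, Real.exp_zero]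
  calc f n * (W (Real.log n - c) ^ 2 / n) = (Real.exp (-c) * Real.exp c) * (f n * (W (Real.log n - c) ^ 2 / n)) := by rw [h2, one_mul]
    _ = Real.exp (-c) * (f n * (W (Real.log n - c) ^ 2 * (Real.exp c / n))) := by ring

/-- summation by parts as an integral -/
private theorem parts34 {W : ℝ → ℝ} {R : ℝ} (hW : PF W R) (c : ℝ) (f : ℕ → ℝ) :
    ∑ n ∈ Finset.Icc 1 ⌊Real.exp (c + R)⌋₊, f n * Gw W (Real.log n - c) =
      -∫ u in Icc (-R) R, deriv (Gw W) u * ∑ n ∈ Finset.Icc 1 ⌊Real.exp (c + u)⌋₊, f n := by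
  have hd : Continuous (deriv (Gw W)) := (Gw_smooth hW).continuous_deriv le_rfl
  obtain ⟨K, hK0, hK⟩ := Gw_deriv hW
  have h2 : ∀ n ∈ Finset.Icc 1 ⌊Real.exp (c + R)⌋₊, f n * Gw W (Real.log n - c) =
      -∫ u in Icc (-R) R, deriv (Gw W) u * (if Real.log n - c ≤ u then f n else 0) := by
    intro n _
    rw [rep34 (Gw_smooth hW) (Gw_supp hW) (Real.log n - c), mul_neg, ← integral_const_mul]
    congr 1
    refine integral_congr_ae (Eventually.of_forall fun u => ?_)
    simp only
    split_ifs <;> ring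
  rw [Finset.sum_congr rfl h2, Finset.sum_neg_distrib, ← integral_finsetSum]
  · congr 1
    refine setIntegral_congr_fun measurableSet_Icc fun u hu => ?_
    rw [← Finset.mul_sum, ← Finset.sum_filter]
    congr 1
    refine Finset.sum_congr ?_ fun _ _ => rfl
    ext n
    simp only [Finset.mem_filter, Finset.mem_Icc]
    constructor
    · rintro ⟨⟨h3, h4⟩, h5⟩
      refine ⟨h3, Nat.le_floor ?_⟩
      have hn : (0 : ℝ) < n := by exact_mod_cast h3
      rw [← Real.exp_log hn]
      exact Real.exp_le_exp.2 (by linarith)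
    · rintro ⟨h3, h4⟩
      have hn : (0 : ℝ) < n := by exact_mod_cast h3
      have h5 : (n : ℝ) ≤ Real.exp (c + u) := (Nat.le_floor_iff (Real.exp_pos _).le).1 h4
      refine ⟨⟨h3, ?_⟩, ?_⟩
      · exact Nat.le_floor (h5.trans (Real.exp_le_exp.2 (by linarith [hu.2])))
      · have h6 : Real.log n ≤ c + u := by
          rw [Real.log_le_iff_le_exp hn]
          exact h5
        linarith
  · intro n _
    refine Integrable.mono' (g := fun _ => K * |f n|) (integrable_const _) ?_ (Eventually.of_forall fun u => ?_)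
    · refine Measurable.aestronglyMeasurable ?_
      exact hd.measurable.mul (Measurable.ite measurableSet_Ici measurable_const measurable_const)
    · rw [norm_mul, Real.norm_eq_abs, Real.norm_eq_abs]
      refine mul_le_mul (hK u) ?_ (abs_nonneg _) hK0.le
      split_ifs
      · exact le_rfl
      · rw [abs_zero]
        exact abs_nonneg _

/-- partial sums to weighted sums -/
theorem Sm_of_sum {W : ℝ → ℝ} {R : ℝ} (hW : PF W R) (hR : 0 < R) : ∃ C : ℝ, 0 < C ∧ ∀ (c : ℝ) (f : ℕ → ℝ) (A E : ℝ), 0 ≤ E → R ≤ c →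
    (∀ N : ℕ, |∑ n ∈ Finset.Icc 1 N, f n - A * N| ≤ E) → |Sm W R c f - A * ∫ y, W y ^ 2| ≤ C * (E + |A|) * Real.exp (-c) := by
  obtain ⟨K, hK0, hK⟩ := Gw_deriv hW
  have hd : Continuous (deriv (Gw W)) := (Gw_smooth hW).continuous_deriv le_rfl
  refine ⟨K * (2 * R), by positivity, fun c f A E hE _ h => ?_⟩
  rw [Sm_Gw, parts34 hW, ← Gw_int W, main34 hR (Gw_smooth hW) (Gw_supp hW)]
  have hbd : ∀ u ∈ Icc (-R) R, |∑ n ∈ Finset.Icc 1 ⌊Real.exp (c + u)⌋₊, f n - A * Real.exp (c + u)| ≤ E + |A| := by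
    intro u _
    have h1 := h ⌊Real.exp (c + u)⌋₊
    have h2 : |A * (⌊Real.exp (c + u)⌋₊ : ℝ) - A * Real.exp (c + u)| ≤ |A| := by
      rw [← mul_sub, abs_mul]
      have h3 : |(⌊Real.exp (c + u)⌋₊ : ℝ) - Real.exp (c + u)| ≤ 1 := by
        rw [abs_le]
        have h4 := Nat.floor_le (Real.exp_pos (c + u)).le
        have h5 := Nat.lt_floor_add_one (Real.exp (c + u))
        constructor <;> linarith
      calc |A| * |(⌊Real.exp (c + u)⌋₊ : ℝ) - Real.exp (c + u)| ≤ |A| * 1 := mul_le_mul_of_nonneg_left h3 (abs_nonneg _)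
        _ = |A| := mul_one _
    calc |∑ n ∈ Finset.Icc 1 ⌊Real.exp (c + u)⌋₊, f n - A * Real.exp (c + u)|
        = |(∑ n ∈ Finset.Icc 1 ⌊Real.exp (c + u)⌋₊, f n - A * (⌊Real.exp (c + u)⌋₊ : ℝ)) +
            (A * (⌊Real.exp (c + u)⌋₊ : ℝ) - A * Real.exp (c + u))| := by ring_nf
      _ ≤ _ := (abs_add_le _ _).trans (add_le_add h1 h2)
  -- measurability of the partial sums
  have hme : Measurable fun u : ℝ => ∑ n ∈ Finset.Icc 1 ⌊Real.exp (c + u)⌋₊, f n := by
    have h1 : Measurable fun u : ℝ => ⌊Real.exp (c + u)⌋₊ := Nat.measurable_floor.comp (by fun_prop)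
    exact (measurable_from_nat (f := fun N : ℕ => ∑ n ∈ Finset.Icc 1 N, f n)).comp h1
  have hint1 : IntegrableOn (fun u => deriv (Gw W) u * ∑ n ∈ Finset.Icc 1 ⌊Real.exp (c + u)⌋₊, f n) (Icc (-R) R) := by
    refine Integrable.mono' (g := fun _ => K * ((E + |A|) + |A| * Real.exp (c + R))) (integrable_const _) ?_ ?_
    · exact (hd.measurable.mul hme).aestronglyMeasurable
    · refine (ae_restrict_iff' measurableSet_Icc).2 (Eventually.of_forall fun u hu => ?_)
      rw [norm_mul, Real.norm_eq_abs, Real.norm_eq_abs]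
      refine mul_le_mul (hK u) ?_ (abs_nonneg _) hK0.le
      calc |∑ n ∈ Finset.Icc 1 ⌊Real.exp (c + u)⌋₊, f n|
          = |(∑ n ∈ Finset.Icc 1 ⌊Real.exp (c + u)⌋₊, f n - A * Real.exp (c + u)) + A * Real.exp (c + u)| := by ring_nf
        _ ≤ |∑ n ∈ Finset.Icc 1 ⌊Real.exp (c + u)⌋₊, f n - A * Real.exp (c + u)| + |A * Real.exp (c + u)| := abs_add_le _ _
        _ ≤ (E + |A|) + |A| * Real.exp (c + R) := by
          refine add_le_add (hbd u hu) ?_
          rw [abs_mul, abs_of_pos (Real.exp_pos _)]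
          exact mul_le_mul_of_nonneg_left (Real.exp_le_exp.2 (by linarith [hu.2])) (abs_nonneg _)
  have hint2 : IntegrableOn (fun u => deriv (Gw W) u * Real.exp u) (Icc (-R) R) :=
    (hd.mul Real.continuous_exp).continuousOn.integrableOn_compact isCompact_Icc
  have e1 : Real.exp (-c) * -∫ u in Icc (-R) R, deriv (Gw W) u * ∑ n ∈ Finset.Icc 1 ⌊Real.exp (c + u)⌋₊, f n =
      -∫ u in Icc (-R) R, Real.exp (-c) * (deriv (Gw W) u * ∑ n ∈ Finset.Icc 1 ⌊Real.exp (c + u)⌋₊, f n) := by
    rw [mul_neg, integral_const_mul]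
  have e2 : A * -∫ u in Icc (-R) R, deriv (Gw W) u * Real.exp u = -∫ u in Icc (-R) R, A * (deriv (Gw W) u * Real.exp u) := by
    rw [mul_neg, integral_const_mul]
  rw [e1, e2, neg_sub_neg, ← integral_sub (hint2.const_mul A) (hint1.const_mul _)]
  have h2 : ‖∫ u in Icc (-R) R, (A * (deriv (Gw W) u * Real.exp u) - Real.exp (-c) * (deriv (Gw W) u * ∑ n ∈ Finset.Icc 1 ⌊Real.exp (c + u)⌋₊, f n))‖ ≤
      K * (Real.exp (-c) * (E + |A|)) * (volume.real (Icc (-R) R)) := by
    refine norm_setIntegral_le_of_norm_le_const (by rw [Real.volume_Icc]; exact ENNReal.ofReal_lt_top) fun u hu => ?_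
    have h3 : Real.exp (-c) * Real.exp (c + u) = Real.exp u := by
      rw [← Real.exp_add]
      congr 1
      ring
    have h4 : A * (deriv (Gw W) u * Real.exp u) - Real.exp (-c) * (deriv (Gw W) u * ∑ n ∈ Finset.Icc 1 ⌊Real.exp (c + u)⌋₊, f n) =
        deriv (Gw W) u * (Real.exp (-c) * -(∑ n ∈ Finset.Icc 1 ⌊Real.exp (c + u)⌋₊, f n - A * Real.exp (c + u))) := by
      rw [← h3]
      ring
    rw [h4, norm_mul, Real.norm_eq_abs, Real.norm_eq_abs, abs_mul, abs_neg, abs_of_pos (Real.exp_pos _)]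
    exact mul_le_mul (hK u) (mul_le_mul_of_nonneg_left (hbd u hu) (Real.exp_pos _).le)
      (mul_nonneg (Real.exp_pos _).le (abs_nonneg _)) hK0.le
  rw [Real.norm_eq_abs] at h2
  refine h2.trans (le_of_eq ?_)
  rw [Real.volume_real_Icc_of_le (by linarith)]
  ring

/-- multiples of `m` -/
theorem Sm_dvd {W : ℝ → ℝ} {R : ℝ} (hW : PF W R) (c : ℝ) (f : ℕ → ℝ) {m : ℕ} (hm : 1 ≤ m) :
    Sm W R c (fun n => if m ∣ n then f (n / m) else 0) = (1 / m) * Sm W R (c - Real.log m) f := by
  have hm0 : (0 : ℝ) < m := by exact_mod_cast hm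
  have hmp : 0 < m := hm
  unfold Sm
  rw [Finset.mul_sum]
  have h1 : ∀ n ∈ Finset.Icc 1 ⌊Real.exp (c + R)⌋₊, (if m ∣ n then f (n / m) else 0) * (W (Real.log n - c) ^ 2 / n) =
      if m ∣ n then f (n / m) * (W (Real.log n - c) ^ 2 / n) else 0 := by
    intro n _
    split_ifs
    · rfl
    · rw [zero_mul]
  rw [Finset.sum_congr rfl h1, ← Finset.sum_filter]
  symm
  refine Finset.sum_bij (fun k _ => m * k) ?_ ?_ ?_ ?_
  · intro k hk
    have hk1 := (Finset.mem_Icc.1 hk).1
    have hk2 := (Nat.le_floor_iff (Real.exp_pos _).le).1 (Finset.mem_Icc.1 hk).2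
    rw [Finset.mem_filter, Finset.mem_Icc]
    refine ⟨⟨Nat.one_le_iff_ne_zero.2 (Nat.mul_ne_zero (by omega) (by omega)), Nat.le_floor ?_⟩, dvd_mul_right m k⟩
    push_cast
    have h2 : Real.exp (c - Real.log m + R) = Real.exp (c + R) / m := by
      rw [show c - Real.log m + R = (c + R) - Real.log m by ring, Real.exp_sub, Real.exp_log hm0]
    rw [h2, le_div_iff₀ hm0] at hk2
    linarith
  · intro a _ b _ hab
    exact Nat.eq_of_mul_eq_mul_left hmp hab
  · intro n hn
    rw [Finset.mem_filter, Finset.mem_Icc] at hn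
    obtain ⟨⟨hn1, hn2⟩, k, rfl⟩ := hn
    have hk0 : k ≠ 0 := by
      rintro rfl
      simp at hn1
    refine ⟨k, ?_, rfl⟩
    rw [Finset.mem_Icc]
    refine ⟨Nat.one_le_iff_ne_zero.2 hk0, Nat.le_floor ?_⟩
    have h3 := (Nat.le_floor_iff (Real.exp_pos _).le).1 hn2
    push_cast at h3
    have h2 : Real.exp (c - Real.log m + R) = Real.exp (c + R) / m := by
      rw [show c - Real.log m + R = (c + R) - Real.log m by ring, Real.exp_sub, Real.exp_log hm0]
    rw [h2, le_div_iff₀ hm0]
    linarith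
  · intro k hk
    have hk1 : (0 : ℝ) < k := by exact_mod_cast (Finset.mem_Icc.1 hk).1
    rw [Nat.mul_div_cancel_left k hmp]
    push_cast
    rw [Real.log_mul hm0.ne' hk1.ne']
    have h3 : Real.log k - (c - Real.log m) = Real.log m + Real.log k - c := by ring
    rw [h3]
    field_simp

/-- the prime number theorem at scale 1 (from `pnt_c1`), prime powers included -/
theorem Sm_Lam {W : ℝ → ℝ} {R ε : ℝ} (hW : PF W R) (hR : 0 < R) (hε : 0 < ε) : ∀ᶠ c : ℝ in atTop,
    |Sm W R c (fun n => ArithmeticFunction.vonMangoldt n) - ∫ y, W y ^ 2| ≤ ε := by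
  obtain ⟨K, hK0, hK⟩ := Gw_deriv hW
  obtain ⟨c₀, hc₀⟩ := pnt_c1 hR hK0.le hε
  filter_upwards [eventually_ge_atTop c₀] with c hc
  have h1 := hc₀ c hc (Gw W) (Gw_smooth hW) hK (Gw_supp hW) ⌈Real.exp (c + R)⌉₊ (Nat.le_ceil _)
  rw [Gw_int] at h1
  rw [Sm_Gw]
  have h2 : ∑ n ∈ Finset.Icc 1 ⌊Real.exp (c + R)⌋₊, ArithmeticFunction.vonMangoldt n * Gw W (Real.log n - c) =
      ∑ n ∈ Finset.Icc 1 ⌈Real.exp (c + R)⌉₊, ArithmeticFunction.vonMangoldt n * Gw W (Real.log n - c) := by
    refine Finset.sum_subset (Finset.Icc_subset_Icc le_rfl (Nat.floor_le_ceil _)) fun n hn hn' => ?_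
    have hn1 := (Finset.mem_Icc.1 hn).1
    have hn0 : (0 : ℝ) < n := by exact_mod_cast hn1
    have h3 : ⌊Real.exp (c + R)⌋₊ < n := by
      by_contra h
      exact hn' (Finset.mem_Icc.2 ⟨hn1, not_lt.1 h⟩)
    have h4 : Real.exp (c + R) < n := (Nat.floor_lt (Real.exp_pos _).le).1 h3
    have h5 : c + R < Real.log n := by
      rw [← Real.exp_lt_exp, Real.exp_log hn0]
      exact h4
    rw [van34 (Gw_supp hW), mul_zero]
    have := le_abs_self (Real.log n - c)
    linarith
  rw [h2]
  exact h1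

/-- the prime powers are negligible -/
theorem Sm_pp {W : ℝ → ℝ} {R : ℝ} (hW : PF W R) (hR : 0 < R) : ∃ C : ℝ, 0 < C ∧ ∀ c : ℝ, 1 ≤ c → ∀ (f : ℕ → ℝ) (F : ℝ), (∀ n : ℕ, 1 ≤ n → (n : ℝ) ≤ Real.exp (c + R) → |f n| ≤ F) →
    |Sm W R c (fun n => if n.Prime then 0 else ArithmeticFunction.vonMangoldt n * f n)| ≤ C * F * c * Real.exp (-(c / 2)) := by
  refine ⟨Real.exp (3 * R / 2) * (2 * (1 + R)), by positivity, fun c hc f F hf => ?_⟩
  have hx : (1 : ℝ) ≤ Real.exp (c + R) := Real.one_le_exp (by linarith)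
  have hF : 0 ≤ F := by
    have h1 := hf 1 le_rfl (by simpa using hx)
    exact (abs_nonneg _).trans h1
  have hps := Chebyshev.psi_sub_theta_le hx
  rw [Chebyshev.psi_sub_theta_eq_sum_not_prime] at hps
  have hterm : ∀ n ∈ Finset.Icc 1 ⌊Real.exp (c + R)⌋₊, |(if n.Prime then 0 else ArithmeticFunction.vonMangoldt n * f n) * (W (Real.log n - c) ^ 2 / n)| ≤
      F * Real.exp (-(c - R)) * (if ¬ n.Prime then ArithmeticFunction.vonMangoldt n else 0) := by
    intro n hn
    have hn1 := (Finset.mem_Icc.1 hn).1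
    have hn0 : (0 : ℝ) < n := by exact_mod_cast hn1
    have hn2 : (n : ℝ) ≤ Real.exp (c + R) := (Nat.le_floor_iff (Real.exp_pos _).le).1 (Finset.mem_Icc.1 hn).2
    by_cases hp : n.Prime
    · rw [if_pos hp, zero_mul, abs_zero, if_neg (not_not.2 hp), mul_zero]
    · rw [if_neg hp, if_pos hp]
      by_cases hW0 : W (Real.log n - c) = 0
      · rw [hW0]
        simp only [ne_eq, OfNat.ofNat_ne_zero, not_false_eq_true, zero_pow, zero_div, mul_zero, abs_zero]
        exact mul_nonneg (mul_nonneg hF (Real.exp_pos _).le) ArithmeticFunction.vonMangoldt_nonneg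
      · have h1 := hW.supp _ hW0
        have h2 : c - R ≤ Real.log n := by
          have := neg_abs_le (Real.log n - c)
          linarith
        have h3 : Real.exp (c - R) ≤ n := by
          rw [← Real.exp_log hn0]
          exact Real.exp_le_exp.2 h2
        have h4 : W (Real.log n - c) ^ 2 / n ≤ Real.exp (-(c - R)) := by
          rw [Real.exp_neg, div_le_iff₀ hn0]
          have h5 : W (Real.log n - c) ^ 2 ≤ 1 := pow_le_one₀ (hW.nonneg _) (hW.le_one _)
          have h6 : 1 ≤ (Real.exp (c - R))⁻¹ * n := by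
            rw [← div_eq_inv_mul, le_div_iff₀ (Real.exp_pos _), one_mul]
            exact h3
          linarith
        have h7 : 0 ≤ W (Real.log n - c) ^ 2 / n := by positivity
        rw [abs_mul, abs_mul, abs_of_nonneg h7, abs_of_nonneg ArithmeticFunction.vonMangoldt_nonneg]
        calc ArithmeticFunction.vonMangoldt n * |f n| * (W (Real.log n - c) ^ 2 / n) ≤ ArithmeticFunction.vonMangoldt n * F * Real.exp (-(c - R)) := by
              refine mul_le_mul (mul_le_mul_of_nonneg_left (hf n hn1 hn2) ArithmeticFunction.vonMangoldt_nonneg) h4 h7 ?_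
              exact mul_nonneg ArithmeticFunction.vonMangoldt_nonneg hF
          _ = F * Real.exp (-(c - R)) * ArithmeticFunction.vonMangoldt n := by ring
  have hsum : |Sm W R c (fun n => if n.Prime then 0 else ArithmeticFunction.vonMangoldt n * f n)| ≤
      F * Real.exp (-(c - R)) * (2 * √(Real.exp (c + R)) * Real.log (Real.exp (c + R))) := by
    unfold Sm
    refine (Finset.abs_sum_le_sum_abs _ _).trans ((Finset.sum_le_sum hterm).trans ?_)
    rw [← Finset.mul_sum]
    refine mul_le_mul_of_nonneg_left ?_ (mul_nonneg hF (Real.exp_pos _).le)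
    refine le_trans (le_of_eq ?_) hps
    rw [← Finset.sum_filter]
    refine Finset.sum_congr ?_ fun _ _ => rfl
    ext n
    simp only [Finset.mem_filter, Finset.mem_Icc, Finset.mem_Ioc]
    constructor
    · rintro ⟨⟨h1, h2⟩, h3⟩
      exact ⟨⟨by omega, h2⟩, h3⟩
    · rintro ⟨⟨h1, h2⟩, h3⟩
      exact ⟨⟨by omega, h2⟩, h3⟩
  refine hsum.trans ?_
  rw [Real.log_exp]
  have e1 : √(Real.exp (c + R)) = Real.exp ((c + R) / 2) := by
    rw [Real.sqrt_eq_iff_mul_self_eq (Real.exp_pos _).le (Real.exp_pos _).le, ← Real.exp_add]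
    congr 1
    ring
  rw [e1]
  have e2 : Real.exp (-(c - R)) * Real.exp ((c + R) / 2) = Real.exp (3 * R / 2) * Real.exp (-(c / 2)) := by
    rw [← Real.exp_add, ← Real.exp_add]
    congr 1
    ring
  have h8 : c + R ≤ (1 + R) * c := by nlinarith
  calc F * Real.exp (-(c - R)) * (2 * Real.exp ((c + R) / 2) * (c + R)) =
        F * 2 * (Real.exp (-(c - R)) * Real.exp ((c + R) / 2)) * (c + R) := by ring
    _ = F * 2 * (Real.exp (3 * R / 2) * Real.exp (-(c / 2))) * (c + R) := by rw [e2]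
    _ ≤ F * 2 * (Real.exp (3 * R / 2) * Real.exp (-(c / 2))) * ((1 + R) * c) := mul_le_mul_of_nonneg_left h8 (by positivity)
    _ = Real.exp (3 * R / 2) * (2 * (1 + R)) * F * c * Real.exp (-(c / 2)) := by ring

end Pool.Agent.AP
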