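import Pool.Agent.Helper34.AP.P1

/-!
# (A') type II, T1: Cauchy inequality over `m` and the classes of pairs for the tiny sum

Pairs `(i, i')` with `(q2, q2') = 1`, `x ≠ x'`, `(x, q2') > 1` (so `x ∣ q2'`) and `(x', q2) = 1` are the pairs `(i', i)` of
`Se (¬ coprime)`, by the symmetry of the bracket.
-/

set_option autoImplicit false

open Finset

namespace Pool.Agent.Helper34.AP

open Pool.Agent.Helper57.BG

theorem norm_ccT34 (p : TD) (h : p.Ok) (i : ℕ × ℕ × ℕ) : ‖p.cc i‖ ≤ 1 := by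
  unfold TD.cc
  rw [norm_mul, norm_mul]
  have h1 := h.hb i.1
  have h2 := h.hlam i.2.1
  have h3 := h.hbe i.2.2
  calc ‖p.b i.1‖ * ‖p.lam i.2.1‖ * ‖p.be i.2.2‖ ≤ 1 * 1 * 1 :=
        mul_le_mul (mul_le_mul h1 h2 (norm_nonneg _) zero_le_one) h3 (norm_nonneg _) (by norm_num)
    _ = 1 := by norm_num

theorem NN_symm34 (Y : ℝ) (k : ℤ) (u l u' l' : ℕ) : NN Y k u l u' l' = NN Y k u' l' u l := by
  unfold NN
  refine tsum_congr fun m => ?_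
  by_cases h : (u : ℤ) ∣ m * l - k ∧ (u' : ℤ) ∣ m * l' - k
  · rw [if_pos h, if_pos h.symm]
  · rw [if_neg h, if_neg fun h' => h h'.symm]

theorem Br_symm34 (Y : ℝ) (k : ℤ) (q1 q2 l q2' l' : ℕ) :
    Br Y k q1 q2' l' q2 l = Br Y k q1 q2 l q2' l' := by
  unfold Br
  rw [NN_symm34 Y k (q1 * q2') l' (q1 * q2) l, NN_symm34 Y k (q1 * q2') l' q1 l,
    NN_symm34 Y k q1 l' (q1 * q2) l, NN_symm34 Y k q1 l' q1 l]
  ring

theorem cauchyT34 {B : Finset ℕ} (al : ℕ → ℂ) (hal : ∀ n, ‖al n‖ ≤ 1)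
    (F : ℕ → ℂ) : ‖∑ m ∈ B, al m * F m‖ ^ 2 ≤ (B.card : ℝ) * ∑ m ∈ B, ‖F m‖ ^ 2 := by
  have h1 : ‖∑ m ∈ B, al m * F m‖ ≤ ∑ m ∈ B, ‖F m‖ := by
    refine (norm_sum_le _ _).trans (sum_le_sum fun m _ => ?_)
    rw [norm_mul]
    exact mul_le_of_le_one_left (norm_nonneg _) (hal m)
  exact (pow_le_pow_left₀ (norm_nonneg _) h1 2).trans sq_sum_le_card_mul_sum_sq

theorem Se_eq34 (p : TD) (Z : ℕ → ℕ → Prop) (inst : DecidablePred fun ii : (ℕ × ℕ × ℕ) × (ℕ × ℕ × ℕ) =>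
      Nat.Coprime (ii.1.1 * ii.1.2.1) (ii.2.1 * ii.2.2.1) ∧ ii.1.2.2 ≠ ii.2.2.2 ∧
        Nat.Coprime ii.1.2.2 (ii.2.1 * ii.2.2.1) ∧ Z ii.2.2.2 (ii.1.1 * ii.1.2.1)) :
    p.Se Z = ∑ ii ∈ p.I ×ˢ p.I, (if Nat.Coprime (ii.1.1 * ii.1.2.1) (ii.2.1 * ii.2.2.1) ∧
      ii.1.2.2 ≠ ii.2.2.2 ∧ Nat.Coprime ii.1.2.2 (ii.2.1 * ii.2.2.1) ∧ Z ii.2.2.2 (ii.1.1 * ii.1.2.1) then
      p.cc ii.1 * (starRingEnd ℂ) (p.cc ii.2) * ((p.br ii.1 ii.2 : ℝ) : ℂ) else 0) := by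
  unfold TD.Se
  rw [sum_filter]
  refine sum_congr rfl fun ii _ => ?_
  by_cases c : Nat.Coprime (ii.1.1 * ii.1.2.1) (ii.2.1 * ii.2.2.1) ∧
      ii.1.2.2 ≠ ii.2.2.2 ∧ Nat.Coprime ii.1.2.2 (ii.2.1 * ii.2.2.1) ∧ Z ii.2.2.2 (ii.1.1 * ii.1.2.1)
  · rw [if_pos c, if_pos c]
  · rw [if_neg c, if_neg c]

theorem t1 (hopen : Stmt_open1) (p : TD) (h : p.Ok) (al : ℕ → ℂ) (hal : ∀ n, ‖al n‖ ≤ 1) :
    ‖p.S al‖ ^ 2 ≤ 5 * p.M * (p.Sb + p.Sc + ‖p.Sd‖ + ‖p.Se (fun _ _ => True)‖ +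
      ‖p.Se (fun x q => ¬ Nat.Coprime x q)‖) := by
  classical
  have hM := h.hM
  obtain ⟨g, hg⟩ : ∃ g : (ℕ × ℕ × ℕ) × (ℕ × ℕ × ℕ) → ℂ, g = fun ii =>
    p.cc ii.1 * (starRingEnd ℂ) (p.cc ii.2) * ((p.br ii.1 ii.2 : ℝ) : ℂ) := ⟨_, rfl⟩
  have hgi : ∀ ii, p.cc ii.1 * (starRingEnd ℂ) (p.cc ii.2) * ((p.br ii.1 ii.2 : ℝ) : ℂ) = g ii := by
    intro ii
    rw [hg]
  obtain ⟨F, hF⟩ : ∃ F : ℕ → ℂ, F = fun (m : ℕ) => ∑ i ∈ p.I, p.cc i *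
    ((if ((p.q1 * (i.1 * i.2.1) : ℕ) : ℤ) ∣ (m : ℤ) * i.2.2 - p.k then (1 : ℂ) else 0) -
      1 / ((i.1 * i.2.1 : ℕ) : ℂ) * (if (p.q1 : ℤ) ∣ (m : ℤ) * i.2.2 - p.k then (1 : ℂ) else 0)) :=
    ⟨_, rfl⟩
  have hS : p.S al = ∑ m ∈ p.Ms, al m * F m := by
    rw [hF]
    rfl
  have h1 : ‖p.S al‖ ^ 2 ≤ (p.Ms.card : ℝ) * ∑ m ∈ p.Ms, ‖F m‖ ^ 2 := by
    rw [hS]
    exact cauchyT34 al hal F
  have hIpos : ∀ i ∈ p.I, 0 < i.1 * i.2.1 ∧ 1 < i.2.2 ∧ i.1 ∈ p.QQ ∧ i.2.1 ∈ p.W ∧ i.2.2 ∈ p.XX := by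
    intro i hi
    unfold TD.I at hi
    rw [mem_filter, mem_product, mem_product] at hi
    have h4 := (h.hQQ _ hi.1.1).2.1
    have h5 := (h.hW _ hi.1.2.1).1.pos
    have h6 : 0 < i.1 := by
      have : (0 : ℝ) < i.1 := by linarith [h.hQ]
      exact_mod_cast this
    have h7 : 1 < i.2.2 := by
      have h8 := (h.hXX _ hi.1.2.2).1
      have : (1 : ℝ) < i.2.2 := by linarith [h.hX]
      exact_mod_cast this
    exact ⟨Nat.mul_pos h6 h5, h7, hi.1.1, hi.1.2.1, hi.1.2.2⟩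
  have h2 : ∑ m ∈ p.Ms, ‖F m‖ ^ 2 ≤ Real.pi ^ 2 / 4 * (∑ ii ∈ p.I ×ˢ p.I, g ii).re := by
    have h3 := hopen (4 * p.M) p.M hM le_rfl p.k p.q1 h.hq1 p.I p.cc (fun i => i.1 * i.2.1)
      (fun i => i.2.2) (fun i hi => (hIpos i hi).1) (fun i hi => by
        have := (hIpos i hi).2.1
        omega)
    rw [sum_product, hg, hF]
    exact h3
  have h4 : (∑ ii ∈ p.I ×ˢ p.I, g ii).re ≤ p.Sb + p.Sc + ‖p.Sd‖ + ‖p.Se (fun _ _ => True)‖ +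
      ‖p.Se (fun x q => ¬ Nat.Coprime x q)‖ := by
    obtain ⟨gb, hgb⟩ : ∃ gb : ℂ, gb = ∑ ii ∈ (p.I ×ˢ p.I).filter
      (fun ii => ¬ Nat.Coprime (ii.1.1 * ii.1.2.1) (ii.2.1 * ii.2.2.1)), g ii := ⟨_, rfl⟩
    obtain ⟨gc, hgc⟩ : ∃ gc : ℂ, gc = ∑ ii ∈ (p.I ×ˢ p.I).filter
      (fun ii => Nat.Coprime (ii.1.1 * ii.1.2.1) (ii.2.1 * ii.2.2.1) ∧ ii.1.2.2 ≠ ii.2.2.2 ∧
        ii.1.2.2 ∣ ii.2.1 * ii.2.2.1 ∧ ii.2.2.2 ∣ ii.1.1 * ii.1.2.1), g ii := ⟨_, rfl⟩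
    -- the swapped class
    have hsw : ∑ ii ∈ p.I ×ˢ p.I, (if Nat.Coprime (ii.1.1 * ii.1.2.1) (ii.2.1 * ii.2.2.1) ∧
        ii.1.2.2 ≠ ii.2.2.2 ∧ ¬ Nat.Coprime ii.1.2.2 (ii.2.1 * ii.2.2.1) ∧
          Nat.Coprime ii.2.2.2 (ii.1.1 * ii.1.2.1) then g ii else 0) =
        (starRingEnd ℂ) (p.Se (fun x q => ¬ Nat.Coprime x q)) := by
      rw [Se_eq34 p _ (fun _ => Classical.propDecidable _), map_sum]
      refine sum_nbij' (fun ii => (ii.2, ii.1)) (fun ii => (ii.2, ii.1)) ?_ ?_ ?_ ?_ ?_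
      · intro ii hii
        rw [mem_product] at hii ⊢
        exact hii.symm
      · intro ii hii
        rw [mem_product] at hii ⊢
        exact hii.symm
      · intro ii _
        rfl
      · intro ii _
        rfl
      · intro ii _
        by_cases c : Nat.Coprime (ii.1.1 * ii.1.2.1) (ii.2.1 * ii.2.2.1) ∧
          ii.1.2.2 ≠ ii.2.2.2 ∧ ¬ Nat.Coprime ii.1.2.2 (ii.2.1 * ii.2.2.1) ∧
          Nat.Coprime ii.2.2.2 (ii.1.1 * ii.1.2.1)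
        · rw [if_pos c, if_pos ⟨c.1.symm, c.2.1.symm, c.2.2.2, c.2.2.1⟩, hg]
          simp only [map_mul, Complex.conj_conj, Complex.conj_ofReal]
          have e : p.br ii.2 ii.1 = p.br ii.1 ii.2 := by
            unfold TD.br
            exact Br_symm34 _ _ _ _ _ _ _
          rw [e]
          ring
        · rw [if_neg c, if_neg fun c' => c ⟨c'.1.symm, c'.2.1.symm, c'.2.2.2, c'.2.2.1⟩, map_zero]
    have e : ∑ ii ∈ p.I ×ˢ p.I, g ii = gb + gc + p.Sd + p.Se (fun _ _ => True) +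
        (starRingEnd ℂ) (p.Se (fun x q => ¬ Nat.Coprime x q)) := by
      rw [← hsw, hgb, hgc, Se_eq34 p (fun _ _ => True) (fun _ => Classical.propDecidable _)]
      unfold TD.Sd
      rw [sum_filter, sum_filter, sum_filter, ← sum_add_distrib,
        ← sum_add_distrib, ← sum_add_distrib, ← sum_add_distrib]
      refine sum_congr rfl fun ii hii => ?_
      rw [mem_product] at hii
      obtain ⟨-, a0, a1, a2, a3⟩ := hIpos _ hii.1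
      obtain ⟨-, b0, b1, b2, b3⟩ := hIpos _ hii.2
      have hx := h.hXQW _ a3 _ b1 _ b2
      have hx' := h.hXQW _ b3 _ a1 _ a2
      have hx1 : ¬ (Nat.Coprime ii.1.2.2 (ii.2.1 * ii.2.2.1) ∧ ii.1.2.2 ∣ ii.2.1 * ii.2.2.1) := by
        rintro ⟨d1, d2⟩
        have := Nat.eq_one_of_dvd_coprimes d1 (dvd_refl _) d2
        omega
      have hx1' : ¬ (Nat.Coprime ii.2.2.2 (ii.1.1 * ii.1.2.1) ∧ ii.2.2.2 ∣ ii.1.1 * ii.1.2.1) := by
        rintro ⟨d1, d2⟩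
        have := Nat.eq_one_of_dvd_coprimes d1 (dvd_refl _) d2
        omega
      rw [hgi]
      by_cases c1 : Nat.Coprime (ii.1.1 * ii.1.2.1) (ii.2.1 * ii.2.2.1)
      · by_cases c2 : ii.1.2.2 = ii.2.2.2
        · rw [if_neg (by tauto), if_neg (by tauto), if_pos (by tauto), if_neg (by tauto),
            if_neg (by tauto)]
          ring
        · by_cases c3 : Nat.Coprime ii.1.2.2 (ii.2.1 * ii.2.2.1)
          · rw [if_neg (by tauto), if_neg (by tauto), if_neg (by tauto), if_pos (by tauto),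
              if_neg (by tauto)]
            ring
          · by_cases c4 : Nat.Coprime ii.2.2.2 (ii.1.1 * ii.1.2.1)
            · rw [if_neg (by tauto), if_neg (by tauto), if_neg (by tauto), if_neg (by tauto),
                if_pos (by tauto)]
              ring
            · rw [if_neg (by tauto), if_pos (by tauto), if_neg (by tauto), if_neg (by tauto),
                if_neg (by tauto)]
              ring
      · rw [if_pos (by tauto), if_neg (by tauto), if_neg (by tauto), if_neg (by tauto),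
          if_neg (by tauto)]
        ring
    have hb : gb.re ≤ p.Sb := by
      rw [hgb, Complex.re_sum]
      unfold TD.Sb
      refine sum_le_sum fun ii _ => ?_
      rw [hg]
      exact term_le34 (norm_ccT34 p h _) (norm_ccT34 p h _) _
    have hc : gc.re ≤ p.Sc := by
      rw [hgc, Complex.re_sum]
      unfold TD.Sc
      refine sum_le_sum fun ii _ => ?_
      rw [hg]
      exact term_le34 (norm_ccT34 p h _) (norm_ccT34 p h _) _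
    rw [e, Complex.add_re, Complex.add_re, Complex.add_re, Complex.add_re, Complex.conj_re]
    have hd := Complex.re_le_norm p.Sd
    have he := Complex.re_le_norm (p.Se (fun _ _ => True))
    have hf := Complex.re_le_norm (p.Se (fun x q => ¬ Nat.Coprime x q))
    linarith
  have hcM : (p.Ms.card : ℝ) ≤ 2 * p.M := card_Ioc34 hM
  have h5 : 0 ≤ ∑ m ∈ p.Ms, ‖F m‖ ^ 2 := sum_nonneg fun _ _ => sq_nonneg _
  obtain ⟨Z, hZ⟩ : ∃ Z : ℝ, Z = p.Sb + p.Sc + ‖p.Sd‖ + ‖p.Se (fun _ _ => True)‖ +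
      ‖p.Se (fun x q => ¬ Nat.Coprime x q)‖ := ⟨_, rfl⟩
  rw [← hZ] at h4 ⊢
  have h6 : 0 ≤ Z := by
    have hb : 0 ≤ p.Sb := by
      unfold TD.Sb
      exact sum_nonneg fun _ _ => abs_nonneg _
    have hc : 0 ≤ p.Sc := by
      unfold TD.Sc
      exact sum_nonneg fun _ _ => abs_nonneg _
    rw [hZ]
    positivity
  have h7 : ∑ m ∈ p.Ms, ‖F m‖ ^ 2 ≤ Real.pi ^ 2 / 4 * Z :=
    h2.trans (mul_le_mul_of_nonneg_left h4 (by positivity))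
  have hpi : Real.pi ^ 2 / 4 * 2 ≤ 5 := by linarith [pi34]
  calc ‖p.S al‖ ^ 2 ≤ (p.Ms.card : ℝ) * ∑ m ∈ p.Ms, ‖F m‖ ^ 2 := h1
    _ ≤ (2 * p.M) * (Real.pi ^ 2 / 4 * Z) := mul_le_mul hcM h7 h5 (by linarith)
    _ = (Real.pi ^ 2 / 4 * 2) * (p.M * Z) := by ring
    _ ≤ 5 * (p.M * Z) := mul_le_mul_of_nonneg_right hpi (mul_nonneg (by linarith) h6)
    _ = _ := by ring

end Pool.Agent.Helper34.AP
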