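import Pool.Agent.Helper57.BG.Data
import Pool.Agent.Helper57.BG.Stmts

/-!
# (A') type II, P1: Cauchy inequality over `(q1, m)` and the four classes of pairs
-/

set_option autoImplicit false

open Finset

namespace Pool.Agent.Helper34.AP

open Pool.Agent.Helper57.BG

theorem cauchy34 {A B : Finset ℕ} (a al : ℕ → ℂ) (ha : ∀ n, ‖a n‖ ≤ 1) (hal : ∀ n, ‖al n‖ ≤ 1)
    (F : ℕ → ℕ → ℂ) : ‖∑ q ∈ A, a q * ∑ m ∈ B, al m * F q m‖ ^ 2 ≤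
      (A.card : ℝ) * B.card * ∑ q ∈ A, ∑ m ∈ B, ‖F q m‖ ^ 2 := by
  have h1 : ‖∑ q ∈ A, a q * ∑ m ∈ B, al m * F q m‖ ≤ ∑ x ∈ A ×ˢ B, ‖F x.1 x.2‖ := by
    rw [sum_product]
    refine (norm_sum_le _ _).trans (sum_le_sum fun q _ => ?_)
    rw [norm_mul]
    have h2 : ‖∑ m ∈ B, al m * F q m‖ ≤ ∑ m ∈ B, ‖F q m‖ := by
      refine (norm_sum_le _ _).trans (sum_le_sum fun m _ => ?_)
      rw [norm_mul]
      exact mul_le_of_le_one_left (norm_nonneg _) (hal m)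
    calc _ ≤ 1 * ∑ m ∈ B, ‖F q m‖ := mul_le_mul (ha q) h2 (norm_nonneg _) zero_le_one
      _ = _ := one_mul _
  calc _ ≤ (∑ x ∈ A ×ˢ B, ‖F x.1 x.2‖) ^ 2 := pow_le_pow_left₀ (norm_nonneg _) h1 2
    _ ≤ ((A ×ˢ B).card : ℝ) * ∑ x ∈ A ×ˢ B, ‖F x.1 x.2‖ ^ 2 := sq_sum_le_card_mul_sum_sq
    _ = _ := by rw [card_product, sum_product]; push_cast; ring

theorem card_Ioc34 {M : ℝ} (hM : 1 ≤ M) : ((Ioc ⌊M⌋₊ ⌊2 * M⌋₊).card : ℝ) ≤ 2 * M := by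
  rw [Nat.card_Ioc]
  have h1 : ⌊M⌋₊ ≤ ⌊2 * M⌋₊ := Nat.floor_le_floor (by linarith)
  rw [Nat.cast_sub h1]
  have h2 : ((⌊2 * M⌋₊ : ℕ) : ℝ) ≤ 2 * M := Nat.floor_le (by linarith)
  have h3 := Nat.lt_floor_add_one M
  linarith

theorem norm_cc34 (p : PD) (h : p.Ok) (i : ℕ × ℕ × ℕ) : ‖p.cc i‖ ≤ 1 := by
  unfold PD.cc
  rw [norm_mul, norm_mul]
  have h1 := h.hb i.1
  have h2 := h.hlam i.2.1
  have h3 := h.hbe i.2.2
  calc ‖p.b i.1‖ * ‖p.lam i.2.1‖ * ‖p.be i.2.2‖ ≤ 1 * 1 * 1 :=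
        mul_le_mul (mul_le_mul h1 h2 (norm_nonneg _) zero_le_one) h3 (norm_nonneg _) (by norm_num)
    _ = 1 := by norm_num

theorem term_le34 {z z' : ℂ} (hz : ‖z‖ ≤ 1) (hz' : ‖z'‖ ≤ 1) (r : ℝ) :
    (z * (starRingEnd ℂ) z' * (r : ℂ)).re ≤ |r| := by
  refine (Complex.re_le_norm _).trans ?_
  rw [norm_mul, norm_mul, RCLike.norm_conj, Complex.norm_real, Real.norm_eq_abs]
  calc ‖z‖ * ‖z'‖ * |r| ≤ 1 * 1 * |r| := by
        refine mul_le_mul_of_nonneg_right ?_ (abs_nonneg _)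
        exact mul_le_mul hz hz' (norm_nonneg _) zero_le_one
    _ = |r| := by ring

theorem pi34 : Real.pi ^ 2 / 4 * 4 ≤ 10 := by
  have h1 := Real.pi_lt_d2
  have h2 := Real.pi_pos
  nlinarith

theorem p1 (hopen : Stmt_open1) (p : PD) (h : p.Ok) (a al : ℕ → ℂ) (ha : ∀ n, ‖a n‖ ≤ 1)
    (hal : ∀ n, ‖al n‖ ≤ 1) :
    ‖p.S a al‖ ^ 2 ≤ 10 * p.Q1 * p.M * (p.Tb + p.Tc + ‖p.Td‖ + ‖p.Te‖) := by
  classical
  have hQ1 := h.hQ1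
  have hM := h.hM
  -- the double sum
  obtain ⟨g, hg⟩ : ∃ g : ℕ → (ℕ × ℕ × ℕ) × (ℕ × ℕ × ℕ) → ℂ, g = fun q1 ii =>
    p.cc ii.1 * (starRingEnd ℂ) (p.cc ii.2) * ((p.br q1 ii.1 ii.2 : ℝ) : ℂ) := ⟨_, rfl⟩
  obtain ⟨F, hF⟩ : ∃ F : ℕ → ℕ → ℂ, F = fun (q1 m : ℕ) => ∑ i ∈ p.I, p.cc i *
    ((if ((q1 * (i.1 * i.2.1) : ℕ) : ℤ) ∣ (m : ℤ) * i.2.2 - p.k then (1 : ℂ) else 0) -
      1 / ((i.1 * i.2.1 : ℕ) : ℂ) * (if (q1 : ℤ) ∣ (m : ℤ) * i.2.2 - p.k then (1 : ℂ) else 0)) :=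
    ⟨_, rfl⟩
  have hS : p.S a al = ∑ q1 ∈ p.Q1s, a q1 * ∑ m ∈ p.Ms, al m * F q1 m := by
    rw [hF]
    rfl
  have h1 : ‖p.S a al‖ ^ 2 ≤ (p.Q1s.card : ℝ) * p.Ms.card * ∑ q1 ∈ p.Q1s, ∑ m ∈ p.Ms, ‖F q1 m‖ ^ 2 := by
    rw [hS]
    exact cauchy34 a al ha hal F
  have h2 : ∑ q1 ∈ p.Q1s, ∑ m ∈ p.Ms, ‖F q1 m‖ ^ 2 ≤
      ∑ q1 ∈ p.Q1s, Real.pi ^ 2 / 4 * (∑ ii ∈ p.I ×ˢ p.I, g q1 ii).re := by
    refine sum_le_sum fun q1 hq1 => ?_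
    unfold PD.Q1s at hq1
    rw [mem_filter, mem_Ioc] at hq1
    have hq : p.Q1 < q1 := Nat.lt_of_floor_lt hq1.1.1
    have hq0 : 0 < q1 := by
      have : (0 : ℝ) < q1 := by linarith
      exact_mod_cast this
    have h3 := hopen (4 * p.M * q1 / p.Q1) p.M hM (by
      rw [le_div_iff₀ (by linarith)]
      nlinarith) p.k q1 hq0 p.I p.cc (fun i => i.1 * i.2.1) (fun i => i.2.2) (by
        intro i hi
        unfold PD.I at hi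
        rw [mem_filter, mem_product, mem_product] at hi
        have h4 := (h.hQQ _ hi.1.1).2.1
        have h5 := (h.hW _ hi.1.2.1).1.pos
        have h6 : 0 < i.1 := by
          have : (0 : ℝ) < i.1 := by linarith [h.hQ]
          exact_mod_cast this
        exact Nat.mul_pos h6 h5) (by
        intro i hi
        unfold PD.I at hi
        rw [mem_filter, mem_product, mem_product] at hi
        exact (h.hLL _ hi.1.2.2).1.pos)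
    rw [sum_product, hg, hF]
    exact h3
  have h3 : ∑ q1 ∈ p.Q1s, Real.pi ^ 2 / 4 * (∑ ii ∈ p.I ×ˢ p.I, g q1 ii).re =
      Real.pi ^ 2 / 4 * (∑ q1 ∈ p.Q1s, ∑ ii ∈ p.I ×ˢ p.I, g q1 ii).re := by
    rw [← mul_sum, Complex.re_sum]
  have h4 : (∑ q1 ∈ p.Q1s, ∑ ii ∈ p.I ×ˢ p.I, g q1 ii).re ≤ p.Tb + p.Tc + ‖p.Td‖ + ‖p.Te‖ := by
    obtain ⟨gb, hgb⟩ : ∃ gb : ℂ, gb = ∑ q1 ∈ p.Q1s, ∑ ii ∈ (p.I ×ˢ p.I).filter
      (fun ii => ¬ Nat.Coprime (ii.1.1 * ii.1.2.1) (ii.2.1 * ii.2.2.1)), g q1 ii := ⟨_, rfl⟩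
    obtain ⟨gc, hgc⟩ : ∃ gc : ℂ, gc = ∑ q1 ∈ p.Q1s, ∑ ii ∈ (p.I ×ˢ p.I).filter
      (fun ii => Nat.Coprime (ii.1.1 * ii.1.2.1) (ii.2.1 * ii.2.2.1) ∧ ii.1.2.2 ≠ ii.2.2.2 ∧
        ii.1.2.2 ∣ ii.2.1 * ii.2.2.1), g q1 ii := ⟨_, rfl⟩
    have e : ∑ q1 ∈ p.Q1s, ∑ ii ∈ p.I ×ˢ p.I, g q1 ii = gb + gc + p.Td + p.Te := by
      rw [hgb, hgc]
      unfold PD.Td PD.Te
      rw [← sum_add_distrib, ← sum_add_distrib, ← sum_add_distrib]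
      refine sum_congr rfl fun q1 _ => ?_
      rw [sum_filter, sum_filter, sum_filter, sum_filter, ← sum_add_distrib, ← sum_add_distrib,
        ← sum_add_distrib]
      refine sum_congr rfl fun ii _ => ?_
      have hgi : p.cc ii.1 * (starRingEnd ℂ) (p.cc ii.2) * ((p.br q1 ii.1 ii.2 : ℝ) : ℂ) = g q1 ii := by
        rw [hg]
      rw [hgi]
      by_cases c1 : Nat.Coprime (ii.1.1 * ii.1.2.1) (ii.2.1 * ii.2.2.1)
      · by_cases c2 : ii.1.2.2 = ii.2.2.2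
        · rw [if_neg (by tauto), if_neg (by tauto), if_pos (by tauto), if_neg (by tauto)]
          ring
        · by_cases c3 : ii.1.2.2 ∣ ii.2.1 * ii.2.2.1
          · rw [if_neg (by tauto), if_pos (by tauto), if_neg (by tauto), if_neg (by tauto)]
            ring
          · rw [if_neg (by tauto), if_neg (by tauto), if_neg (by tauto), if_pos (by tauto)]
            ring
      · rw [if_pos (by tauto), if_neg (by tauto), if_neg (by tauto), if_neg (by tauto)]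
        ring
    have hb : gb.re ≤ p.Tb := by
      rw [hgb, Complex.re_sum]
      unfold PD.Tb
      refine sum_le_sum fun q1 _ => ?_
      rw [Complex.re_sum]
      refine sum_le_sum fun ii _ => ?_
      rw [hg]
      exact term_le34 (norm_cc34 p h _) (norm_cc34 p h _) _
    have hc : gc.re ≤ p.Tc := by
      rw [hgc, Complex.re_sum]
      unfold PD.Tc
      refine sum_le_sum fun q1 _ => ?_
      rw [Complex.re_sum]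
      refine sum_le_sum fun ii _ => ?_
      rw [hg]
      exact term_le34 (norm_cc34 p h _) (norm_cc34 p h _) _
    rw [e, Complex.add_re, Complex.add_re, Complex.add_re]
    have hd := Complex.re_le_norm p.Td
    have he := Complex.re_le_norm p.Te
    linarith
  -- the cardinalities
  have hcQ : (p.Q1s.card : ℝ) ≤ 2 * p.Q1 := by
    refine le_trans (Nat.cast_le.2 (card_filter_le _ _)) (card_Ioc34 hQ1)
  have hcM : (p.Ms.card : ℝ) ≤ 2 * p.M := card_Ioc34 hM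
  have h5 : 0 ≤ ∑ q1 ∈ p.Q1s, ∑ m ∈ p.Ms, ‖F q1 m‖ ^ 2 :=
    sum_nonneg fun _ _ => sum_nonneg fun _ _ => sq_nonneg _
  have h6 : 0 ≤ p.Tb + p.Tc + ‖p.Td‖ + ‖p.Te‖ := by
    have hb : 0 ≤ p.Tb := by
      unfold PD.Tb
      exact sum_nonneg fun _ _ => sum_nonneg fun _ _ => abs_nonneg _
    have hc : 0 ≤ p.Tc := by
      unfold PD.Tc
      exact sum_nonneg fun _ _ => sum_nonneg fun _ _ => abs_nonneg _
    positivity
  have h7 : ∑ q1 ∈ p.Q1s, ∑ m ∈ p.Ms, ‖F q1 m‖ ^ 2 ≤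
      Real.pi ^ 2 / 4 * (p.Tb + p.Tc + ‖p.Td‖ + ‖p.Te‖) :=
    h2.trans (h3.le.trans (mul_le_mul_of_nonneg_left h4 (by positivity)))
  calc ‖p.S a al‖ ^ 2 ≤ (p.Q1s.card : ℝ) * p.Ms.card * ∑ q1 ∈ p.Q1s, ∑ m ∈ p.Ms, ‖F q1 m‖ ^ 2 := h1
    _ ≤ (2 * p.Q1 * (2 * p.M)) * (Real.pi ^ 2 / 4 * (p.Tb + p.Tc + ‖p.Td‖ + ‖p.Te‖)) :=
        mul_le_mul (mul_le_mul hcQ hcM (Nat.cast_nonneg _) (by linarith)) h7 h5 (by nlinarith)
    _ = (Real.pi ^ 2 / 4 * 4) * (p.Q1 * p.M * (p.Tb + p.Tc + ‖p.Td‖ + ‖p.Te‖)) := by ring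
    _ ≤ 10 * (p.Q1 * p.M * (p.Tb + p.Tc + ‖p.Td‖ + ‖p.Te‖)) :=
        mul_le_mul_of_nonneg_right pi34 (mul_nonneg (by nlinarith) h6)
    _ = _ := by ring

end Pool.Agent.Helper34.AP
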